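import Pool.Agent.Work.MP_2738db_nt_U_helper93.Core

set_option autoImplicit false

/-!
Archimedean two logarithms theorem for rational integers, linear in both heights (block ARL of
theorem U, helper93; the parameters are those of `arch`).
-/

namespace Pool.Agent.Work.MP_2738db_nt_U.helper93

open Finset BigOperators
open Pool.Agent.Work.MP_2738db_nt_W (zero_est exists_minor sum_weights_ge choose_bound log_le_tenth)

/-- ARL -/
theorem stmt_ARL : Stmt_Arl := by
  refine ⟨10 ^ 8, by norm_num, ?_⟩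
  intro X Y k₀ ℓ A B hX0 hY0 hk0 hℓ hcop hA hB hXA hYB hk hℓB
  by_contra hcon
  rw [not_le] at hcon
  have hℓ1 : (1 : ℝ) ≤ ℓ := by exact_mod_cast hℓ
  set lam : ℝ := 1 + Real.log ℓ with hlam
  have hlam1 : 1 ≤ lam := by have := Real.log_nonneg hℓ1; linarith
  set L : ℕ := ⌈60 * lam⌉₊ with hLdef
  have hL1 : 60 * lam ≤ L := Nat.le_ceil _
  have hL2 : (L : ℝ) ≤ 61 * lam := by
    have := Nat.ceil_lt_add_one (show 0 ≤ 60 * lam by linarith)
    rw [← hLdef] at this
    linarith
  have hL60 : (60 : ℝ) ≤ L := by linarith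
  set K : ℕ := ⌈10 ^ 4 * L * A * B⌉₊ with hKdef
  have hA0 : 0 ≤ A := by linarith
  have hB0 : 0 ≤ B := by linarith
  have hLnn : (0 : ℝ) ≤ L := Nat.cast_nonneg _
  have hAB : 1 ≤ A * B := one_le_mul_of_one_le_of_one_le hA hB
  have hK1 : 10 ^ 4 * L * A * B ≤ K := Nat.le_ceil _
  have hK2 : (K : ℝ) ≤ 10 ^ 4 * L * A * B + 1 := by
    have := Nat.ceil_lt_add_one (show 0 ≤ 10 ^ 4 * L * A * B by positivity)
    rw [← hKdef] at this
    linarith
  set R : ℕ := ⌈100 * L * B⌉₊ + 1 with hRdef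
  have hR1 : 100 * L * B + 1 ≤ R := by
    rw [hRdef]; push_cast
    have := Nat.le_ceil (100 * L * B)
    linarith
  have hR2 : (R : ℝ) ≤ 100 * L * B + 2 := by
    rw [hRdef]; push_cast
    have := Nat.ceil_lt_add_one (show 0 ≤ 100 * L * B by positivity)
    linarith
  set S : ℕ := ⌈100 * L * A⌉₊ with hSdef
  have hS1 : 100 * L * A ≤ S := Nat.le_ceil _
  have hS2 : (S : ℝ) ≤ 100 * L * A + 1 := by
    have := Nat.ceil_lt_add_one (show 0 ≤ 100 * L * A by positivity)
    rw [← hSdef] at this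
    linarith
  set q : ℝ := L * (A * B) with hq
  have hLq : (L : ℝ) ≤ q := by rw [hq]; exact le_mul_of_one_le_right hLnn hAB
  have hLA : (L : ℝ) * A ≤ q := by
    rw [hq, ← mul_assoc]
    exact le_mul_of_one_le_right (mul_nonneg hLnn hA0) hB
  have hLB : (L : ℝ) * B ≤ q := by
    rw [hq, mul_comm A B, ← mul_assoc]
    exact le_mul_of_one_le_right (mul_nonneg hLnn hB0) hA
  have hAq : 60 * A ≤ q := (mul_le_mul_of_nonneg_right hL60 hA0).trans hLA
  have hBq : 60 * B ≤ q := (mul_le_mul_of_nonneg_right hL60 hB0).trans hLB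
  have hq60 : 60 ≤ q := by linarith
  have hKq : 10 ^ 4 * q ≤ K := by rw [hq]; linarith [hK1]
  have hK0 : 1 ≤ K := by
    have : (1 : ℝ) ≤ K := by linarith
    exact_mod_cast this
  have hL0 : 1 ≤ L := by
    have : (1 : ℝ) ≤ L := by linarith
    exact_mod_cast this
  -- conditions
  have hBlam : 1 ≤ B * lam := one_le_mul_of_one_le_of_one_le hB hlam1
  have hRℓ : R ≤ ℓ := by
    have h1 : (R : ℝ) ≤ ℓ := by
      have h2 : 100 * B * L ≤ 100 * B * (61 * lam) :=
        mul_le_mul_of_nonneg_left hL2 (by linarith)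
      have h3 : 100 * B * (61 * lam) = 6100 * (B * lam) := by ring
      have h4 : 30000 * B * lam = 30000 * (B * lam) := by ring
      rw [h4] at hℓB
      have h5 : 100 * L * B = 100 * B * L := by ring
      rw [h5] at hR2
      linarith
    exact_mod_cast h1
  have hKLab : (K : ℝ) * L ≤ (10 ^ 4 * L * A * B + 1) * L := mul_le_mul_of_nonneg_right hK2 hLnn
  have hKL : K * L ≤ R * S := by
    have h1 : (K : ℝ) * L ≤ R * S := by
      refine hKLab.trans ?_
      have h2 : (100 * L * B + 1) * (100 * L * A) ≤ R * S :=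
        mul_le_mul hR1 hS1 (by positivity) (by positivity)
      refine le_trans ?_ h2
      have h3 : (100 * L * B + 1) * (100 * L * A) = (10 ^ 4 * L * A * B) * L + 100 * (L * A) := by
        ring
      have h4 : (L : ℝ) ≤ L * A := le_mul_of_one_le_right hLnn hA
      rw [h3, add_mul, one_mul]
      linarith
    exact_mod_cast h1
  have hZ : R * k₀ + (S + L) * ℓ ≤ K * ℓ := by
    have h1 : (R : ℝ) * k₀ + (S + L) * ℓ ≤ K * ℓ := by
      have h2 : (R : ℝ) * k₀ ≤ (100 * L * B + 2) * A * ℓ := by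
        calc (R : ℝ) * k₀ ≤ (100 * L * B + 2) * (A * ℓ) :=
              mul_le_mul hR2 hk (by positivity) (by positivity)
          _ = _ := by ring
      have h3 : (100 * L * B + 2) * A + (S + L) ≤ K := by
        have h4 : (100 * L * B + 2) * A = 100 * q + 2 * A := by rw [hq]; ring
        have h5 : 100 * L * A = 100 * (L * A) := by ring
        rw [h4]
        rw [h5] at hS2
        linarith
      have h4 := mul_le_mul_of_nonneg_right h3 (show (0 : ℝ) ≤ ℓ by linarith)
      rw [add_mul] at h4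
      linarith
    exact_mod_cast h1
  have hKL' : (K : ℝ) * L ≤ 4 * 10 ^ 7 * A * B * lam ^ 2 := by
    have h1 : (10 ^ 4 * L * A * B + 1) * L ≤ (10 ^ 4 + 1) * L ^ 2 * (A * B) := by
      have h2 : (10 ^ 4 + 1) * (L : ℝ) ^ 2 * (A * B) =
          (10 ^ 4 * L * A * B) * L + L * (L * (A * B)) := by ring
      have h3 : (L : ℝ) * 1 ≤ L * (L * (A * B)) :=
        mul_le_mul_of_nonneg_left (by linarith) hLnn
      rw [h2, add_mul]
      linarith
    have h4 : (L : ℝ) ^ 2 ≤ (61 * lam) ^ 2 := pow_le_pow_left₀ hLnn hL2 2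
    have h5 : (10 ^ 4 + 1) * (L : ℝ) ^ 2 * (A * B) ≤ (10 ^ 4 + 1) * (61 * lam) ^ 2 * (A * B) :=
      mul_le_mul_of_nonneg_right (mul_le_mul_of_nonneg_left h4 (by norm_num)) (by linarith)
    have h6 : (10 ^ 4 + 1) * (61 * lam) ^ 2 * (A * B) = 37213721 * ((A * B) * lam ^ 2) := by ring
    have h7 : 4 * 10 ^ 7 * A * B * lam ^ 2 = 40000000 * ((A * B) * lam ^ 2) := by ring
    have h8 : 0 ≤ (A * B) * lam ^ 2 := by positivity
    rw [h7]
    linarith
  have hK0' : (0 : ℝ) < K := by exact_mod_cast hK0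
  have hL0' : (0 : ℝ) < L := by exact_mod_cast hL0
  set Q : ℝ := (K * L) ^ 2 with hQ
  have hKL100 : (36 * 10 ^ 6 : ℝ) ≤ K * L := by
    calc (36 * 10 ^ 6 : ℝ) = (10 ^ 4 * 60) * 60 := by norm_num
      _ ≤ K * L := by
        apply mul_le_mul _ hL60 (by norm_num) hK0'.le
        linarith
  have hQ100 : (10 ^ 6 : ℝ) ≤ Q := by
    rw [hQ, sq]
    have := mul_le_mul hKL100 hKL100 (by norm_num) (by positivity)
    linarith
  -- the logarithmic form
  set w : ℝ := Real.log Y / ℓ with hw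
  have hℓpos : (0 : ℝ) < ℓ := by linarith
  have hXpos : (0 : ℝ) < X := by exact_mod_cast (by omega : 0 < X)
  have hYpos : (0 : ℝ) < Y := by exact_mod_cast (by omega : 0 < Y)
  have hlogY0 : 0 ≤ Real.log Y := Real.log_nonneg (by exact_mod_cast (by omega : 1 ≤ Y))
  have hw0 : 0 ≤ w := div_nonneg hlogY0 hℓpos.le
  have hYw : Real.log Y = ℓ * w := by rw [hw]; field_simp
  set lm : ℝ := Real.log X - k₀ * w with hlm
  have hLam : ℓ * Real.log X - k₀ * Real.log Y = ℓ * lm := by rw [hlm, hYw]; ring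
  have hlmsmall : |lm| < Real.exp (-(5 / 2 * (K * L))) := by
    have h1 : |lm| ≤ |ℓ * Real.log X - k₀ * Real.log Y| := by
      rw [hLam, abs_mul, abs_of_pos hℓpos]
      exact le_mul_of_one_le_left (abs_nonneg _) hℓ1
    refine h1.trans_lt (hcon.trans_le ?_)
    apply Real.exp_le_exp.mpr
    have h2 : 5 / 2 * ((K : ℝ) * L) ≤ 5 / 2 * (4 * 10 ^ 7 * A * B * lam ^ 2) :=
      mul_le_mul_of_nonneg_left hKL' (by norm_num)
    have h3 : 5 / 2 * (4 * 10 ^ 7 * A * B * lam ^ 2) = 10 ^ 8 * (A * B) * lam ^ 2 := by ring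
    linarith
  have hRK : (R : ℝ) ≤ K := by linarith
  have hKL1 : (1 : ℝ) ≤ K * L := by linarith
  have hpow2 : (2 : ℝ) ^ (K * L + 1) ≤ 2 * Real.exp (7 / 10 * (K * L)) := by
    have h1 : (2 : ℝ) ^ (K * L) = Real.exp ((K * L : ℕ) * Real.log 2) := by
      rw [Real.exp_nat_mul, Real.exp_log (by norm_num)]
    rw [pow_succ, mul_comm, h1]
    apply mul_le_mul_of_nonneg_left _ (by norm_num)
    apply Real.exp_le_exp.mpr
    push_cast
    have h2 := Real.log_two_lt_d9
    have h3 : (K : ℝ) * L * Real.log 2 ≤ K * L * (7 / 10) :=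
      mul_le_mul_of_nonneg_left (by linarith) (by positivity)
    linarith
  have hδ : |lm| * ((L : ℝ) * R) * 2 ^ (K * L + 1) ≤ 1 := by
    have h1 : (L : ℝ) * R ≤ K * L := by
      calc (L : ℝ) * R ≤ L * K := mul_le_mul_of_nonneg_left hRK (by positivity)
        _ = _ := by ring
    have h2 : (K : ℝ) * L ≤ Real.exp (K * L) := by
      have := Real.add_one_le_exp ((K : ℝ) * L)
      linarith
    have h3 : |lm| * ((L : ℝ) * R) ≤ Real.exp (-(5 / 2 * (K * L))) * Real.exp (K * L) :=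
      mul_le_mul hlmsmall.le (h1.trans h2) (by positivity) (Real.exp_pos _).le
    have h4 : |lm| * ((L : ℝ) * R) * 2 ^ (K * L + 1) ≤
        (Real.exp (-(5 / 2 * (K * L))) * Real.exp (K * L)) * (2 * Real.exp (7 / 10 * (K * L))) :=
      mul_le_mul h3 hpow2 (by positivity) (by positivity)
    refine h4.trans ?_
    have h5 : (Real.exp (-(5 / 2 * (K * L))) * Real.exp (K * L)) * (2 * Real.exp (7 / 10 * (K * L)))
        = 2 * Real.exp (-(8 / 10 * ((K : ℝ) * L))) := by
      have h6 : Real.exp (-(8 / 10 * ((K : ℝ) * L))) =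
          Real.exp (-(5 / 2 * (K * L))) * Real.exp (K * L) * Real.exp (7 / 10 * (K * L)) := by
        rw [← Real.exp_add, ← Real.exp_add]
        congr 1
        ring
      rw [h6]
      ring
    rw [h5, Real.exp_neg, ← div_eq_mul_inv, div_le_one (Real.exp_pos _)]
    have h7 := Real.add_one_le_exp (8 / 10 * ((K : ℝ) * L))
    linarith
  -- the exponent part
  have hexp : (R : ℝ) * Real.log X + (S + L) * Real.log Y ≤ K * (21 / 1000) := by
    have h1 : (R : ℝ) * Real.log X ≤ (100 * L * B + 2) * A :=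
      (mul_le_mul_of_nonneg_left hXA (by positivity)).trans (mul_le_mul_of_nonneg_right hR2 (by linarith))
    have h2 : ((S : ℝ) + L) * Real.log Y ≤ (100 * L * A + 1 + L) * B :=
      (mul_le_mul_of_nonneg_left hYB (by positivity)).trans (mul_le_mul_of_nonneg_right (by linarith) (by linarith))
    have h3 : (100 * L * B + 2) * A = 100 * q + 2 * A := by rw [hq]; ring
    have h4 : (100 * L * A + 1 + L) * B = 100 * q + B + L * B := by rw [hq]; ring
    rw [h3] at h1
    rw [h4] at h2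
    linarith
  have hRlm : (R : ℝ) * |lm| ≤ 1 := by
    refine le_trans ?_ hδ
    have h1 : (1 : ℝ) ≤ L * 2 ^ (K * L + 1) :=
      one_le_mul_of_one_le_of_one_le (by linarith) (one_le_pow₀ (by norm_num))
    calc (R : ℝ) * |lm| ≤ (R * |lm|) * (L * 2 ^ (K * L + 1)) :=
          le_mul_of_one_le_right (by positivity) h1
      _ = _ := by ring
  have hW : ((R * k₀ + (S + L) * ℓ : ℕ) : ℝ) * w ≤ K * (22 / 1000) := by
    push_cast
    have h1 : ((R : ℝ) * k₀ + (S + L) * ℓ) * w = R * Real.log X + (S + L) * Real.log Y - R * lm := by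
      rw [hlm, hYw]; ring
    rw [h1]
    have h2 : -(R * lm) ≤ (R : ℝ) * |lm| := by
      rw [← mul_neg]
      exact mul_le_mul_of_nonneg_left (neg_le_abs lm) (by positivity)
    linarith
  have hwsmall : w ≤ 1 / 30000 := by
    rw [hw, div_le_div_iff₀ hℓpos (by norm_num)]
    have h1 : B * 1 ≤ B * lam := mul_le_mul_of_nonneg_left hlam1 hB0
    have h4 : 30000 * B * lam = 30000 * (B * lam) := by ring
    rw [h4] at hℓB
    linarith
  have hwL : (L : ℝ) * w ≤ 1 := by
    rw [hw, ← mul_div_assoc, div_le_one hℓpos]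
    calc (L : ℝ) * Real.log Y ≤ (61 * lam) * B :=
          mul_le_mul hL2 hYB hlogY0 (by linarith)
      _ ≤ ℓ := by
          have h1 : 61 * lam * B = 61 * (B * lam) := by ring
          have h4 : 30000 * B * lam = 30000 * (B * lam) := by ring
          rw [h4] at hℓB
          linarith
  have hcore := core2 (by omega : 1 ≤ X) hY0 hcop hℓ hRℓ hKL hK0 hL0 le_rfl (Real.exp K * (ℓ : ℝ) ^ K)
    (fun k hk z hz => choose_bound hK0 hℓ hk (hz.trans hZ)) lm w (K * (22 / 1000)) rfl
    (by rw [hlm]; ring) hδ hwL hW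
  set G : ℕ := ∑ l ∈ range L, l with hG
  have hG2 : (G : ℝ) * 2 = L * (L - 1) := by
    have h1 := Finset.sum_range_id_mul_two L
    rw [← hG] at h1
    have h2 : ((G * 2 : ℕ) : ℝ) = ((L * (L - 1) : ℕ) : ℝ) := by rw [h1]
    push_cast [Nat.cast_sub hL0] at h2
    exact h2
  have hG3 : (49 / 100 : ℝ) * L ^ 2 ≤ G := by
    have h1 : (60 : ℝ) * L ≤ L * L := mul_le_mul_of_nonneg_right hL60 hLnn
    have h2 : (L : ℝ) ^ 2 = L * L := sq _
    have h3 : (L : ℝ) * (L - 1) = L * L - L := by ring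
    rw [h3] at hG2
    rw [h2]
    linarith
  have hG4 : (G : ℝ) ≤ 1 / 2 * L ^ 2 := by
    have h2 : (L : ℝ) ^ 2 = L * L := sq _
    have h3 : (L : ℝ) * (L - 1) = L * L - L := by ring
    rw [h3] at hG2
    rw [h2]
    linarith
  have hG0 : (0 : ℝ) ≤ G := by positivity
  -- the factor F
  have hF : ((K * L).factorial : ℝ) * (Real.exp K * (ℓ : ℝ) ^ K) ^ (K * L) ≤ Real.exp (7 / 60 * Q) := by
    rw [← Real.log_le_iff_le_exp (by positivity)]
    rw [Real.log_mul (by positivity) (by positivity), Real.log_pow,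
      Real.log_mul (Real.exp_pos _).ne' (by positivity), Real.log_exp, Real.log_pow]
    have hfac : Real.log ((K * L).factorial : ℝ) ≤ (K * L : ℝ) * Real.log (K * L) := by
      have h1 : (((K * L).factorial : ℕ) : ℝ) ≤ ((K * L : ℕ) : ℝ) ^ (K * L) := by
        exact_mod_cast Nat.factorial_le_pow (K * L)
      have h2 := Real.log_le_log (by positivity) h1
      rw [Real.log_pow] at h2
      push_cast at h2
      exact h2
    have hmid : ((K * L : ℕ) : ℝ) * (K + K * Real.log ℓ) ≤ Q / 60 := by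
      have h1 : (K : ℝ) + K * Real.log ℓ = K * lam := by rw [hlam]; ring
      rw [h1]
      push_cast
      have h2 : lam ≤ L / 60 := by linarith
      calc (K : ℝ) * L * (K * lam) = (K * K * L) * lam := by ring
        _ ≤ (K * K * L) * (L / 60) := mul_le_mul_of_nonneg_left h2 (by positivity)
        _ = _ := by rw [hQ]; ring
    have hfac2 : (K * L : ℝ) * Real.log (K * L) ≤ Q / 10 := by
      have h2 := log_le_tenth (show (100 : ℝ) ≤ K * L by linarith)
      calc (K * L : ℝ) * Real.log (K * L) ≤ (K * L : ℝ) * ((K * L) / 10) :=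
            mul_le_mul_of_nonneg_left h2 (by positivity)
        _ = _ := by rw [hQ]; ring
    linarith
  have hF0 : (0 : ℝ) ≤ ((K * L).factorial : ℝ) * (Real.exp K * (ℓ : ℝ) ^ K) ^ (K * L) := by positivity
  have hKKG1 : (49 / 100) * Q ≤ (K : ℝ) * K * G := by
    rw [hQ]
    calc (49 / 100 : ℝ) * ((K : ℝ) * L) ^ 2 = (K : ℝ) * K * ((49 / 100) * L ^ 2) := by ring
      _ ≤ (K : ℝ) * K * G := mul_le_mul_of_nonneg_left hG3 (by positivity)
  have hKKG2 : (K : ℝ) * K * G ≤ 1 / 2 * Q := by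
    rw [hQ]
    calc (K : ℝ) * K * G ≤ K * K * (1 / 2 * L ^ 2) := mul_le_mul_of_nonneg_left hG4 (by positivity)
      _ = 1 / 2 * ((K : ℝ) * L) ^ 2 := by ring
  -- first term
  have hE1 : Real.exp ((K * G : ℕ) * (K * w + 4 * (K * (22 / 1000)))) / 2 ^ (K * K * G)
      ≤ Real.exp (-(294 / 1000 * Q)) := by
    have h1 : (2 : ℝ) ^ (K * K * G) = Real.exp ((K * K * G : ℕ) * Real.log 2) := by
      rw [Real.exp_nat_mul, Real.exp_log (by norm_num)]
    rw [h1, ← Real.exp_sub]
    apply Real.exp_le_exp.mpr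
    push_cast
    have h2 := Real.log_two_gt_d9
    have h3 : (K : ℝ) * G * (K * w + 4 * (K * (22 / 1000))) = (K * K * G) * (w + 88 / 1000) := by ring
    rw [h3]
    have h4 : (K : ℝ) * K * G * (w + 88 / 1000) ≤ (K * K * G) * (89 / 1000) :=
      mul_le_mul_of_nonneg_left (by linarith) (by positivity)
    have h5 : (K : ℝ) * K * G * (69 / 100) ≤ (K * K * G) * Real.log 2 :=
      mul_le_mul_of_nonneg_left (by linarith) (by positivity)
    linarith
  have hpow : (2 * (Real.exp K * (ℓ : ℝ) ^ K)) ^ (K * L) =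
      2 ^ (K * L) * (Real.exp K * (ℓ : ℝ) ^ K) ^ (K * L) := mul_pow _ _ _
  have h2KL : (2 : ℝ) ^ (K * L) ≤ Real.exp (1 / 100 * Q) := by
    have h1 : (2 : ℝ) ^ (K * L) = Real.exp ((K * L : ℕ) * Real.log 2) := by
      rw [Real.exp_nat_mul, Real.exp_log (by norm_num)]
    rw [h1]
    apply Real.exp_le_exp.mpr
    push_cast
    have h2 := Real.log_two_lt_d9
    have h3 : (K : ℝ) * L * Real.log 2 ≤ K * L * 1 :=
      mul_le_mul_of_nonneg_left (by linarith) (by positivity)
    have h4 : (K : ℝ) * L * 100 ≤ K * L * (K * L) :=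
      mul_le_mul_of_nonneg_left (by linarith) (by positivity)
    have h5 : Q = K * L * (K * L) := by rw [hQ]; ring
    rw [h5]
    linarith
  rw [hpow] at hcore
  have h2pos : (0 : ℝ) < 2 ^ (K * K * G) := by positivity
  have hcore2 : (1 : ℝ) ≤ 2 ^ (K * L) * (((K * L).factorial : ℝ) * (Real.exp K * (ℓ : ℝ) ^ K) ^ (K * L)) *
      (Real.exp ((K * G : ℕ) * (K * w + 4 * (K * (22 / 1000)))) / 2 ^ (K * K * G)) := by
    rw [← mul_div_assoc, le_div_iff₀ h2pos, one_mul]
    refine hcore.trans (le_of_eq ?_)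
    ring
  have htot : 2 ^ (K * L) * (((K * L).factorial : ℝ) * (Real.exp K * (ℓ : ℝ) ^ K) ^ (K * L)) *
      (Real.exp ((K * G : ℕ) * (K * w + 4 * (K * (22 / 1000)))) / 2 ^ (K * K * G))
      ≤ Real.exp (1 / 100 * Q) * Real.exp (7 / 60 * Q) * Real.exp (-(294 / 1000 * Q)) := by
    apply mul_le_mul (mul_le_mul h2KL hF hF0 (Real.exp_pos _).le) hE1 (by positivity) (by positivity)
  have hlast : Real.exp (1 / 100 * Q) * Real.exp (7 / 60 * Q) * Real.exp (-(294 / 1000 * Q)) < 1 := by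
    rw [← Real.exp_add, ← Real.exp_add, Real.exp_lt_one_iff]
    linarith
  linarith

end Pool.Agent.Work.MP_2738db_nt_U.helper93
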