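import Pool.Agent.Work.MP_2738db_nt_U.Interface
import Pool.Agent.Work.MP_2738db_nt_W.TwoLog2

set_option autoImplicit false

/-!
Determinant of the interpolation matrix plus a small perturbation (block ARL of theorem U, helper93).
The first three lemmas are copied from `MP_2738db_nt_T/Arch.lean`.
-/

namespace Pool.Agent.Work.MP_2738db_nt_U.helper93

open Finset BigOperators
open Pool.Agent.Work.MP_2738db_nt_W (zero_est exists_minor sum_weights_ge choose_bound log_le_tenth)

/-- `∑ₘ C(z,m) C(m,k) v^(m-k) = C(z,k) (1+v)^(z-k)` -/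
lemma binom_id (v : ℝ) (k z Z : ℕ) (hz : z ≤ Z) :
    ∑ m : Fin (Z + 1), (Nat.choose z m : ℝ) * ((Nat.choose m k : ℝ) * v ^ ((m : ℕ) - k))
      = (Nat.choose z k : ℝ) * (1 + v) ^ (z - k) := by
  rw [Fin.sum_univ_eq_sum_range
    (fun m => (Nat.choose z m : ℝ) * ((Nat.choose m k : ℝ) * v ^ (m - k))) (Z + 1)]
  by_cases hkz : k ≤ z
  · have h1 : ∑ m ∈ range (Z + 1), (Nat.choose z m : ℝ) * ((Nat.choose m k : ℝ) * v ^ (m - k))
        = ∑ m ∈ Ico k (z + 1), (Nat.choose z m : ℝ) * ((Nat.choose m k : ℝ) * v ^ (m - k)) := by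
      symm
      apply Finset.sum_subset
      · intro m hm
        rw [mem_Ico] at hm
        rw [mem_range]; omega
      · intro m _ hm
        rw [mem_Ico, not_and_or, not_le, not_lt] at hm
        rcases hm with hm | hm
        · rw [Nat.choose_eq_zero_of_lt hm]; simp
        · rw [Nat.choose_eq_zero_of_lt (by omega : z < m)]; simp
    rw [h1, Finset.sum_Ico_eq_sum_range, add_comm (1 : ℝ) v, add_pow, Finset.mul_sum]
    have h2 : z + 1 - k = z - k + 1 := by omega
    rw [h2]
    apply Finset.sum_congr rfl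
    intro j hj
    rw [mem_range] at hj
    have h3 := Nat.choose_mul (n := z) (k := k + j) (s := k) (by omega)
    rw [Nat.add_sub_cancel_left] at h3
    rw [Nat.add_sub_cancel_left, one_pow, mul_one]
    have h4 : ((Nat.choose z (k + j) : ℝ)) * (Nat.choose (k + j) k : ℝ)
        = (Nat.choose z k : ℝ) * (Nat.choose (z - k) j : ℝ) := by exact_mod_cast h3
    rw [← mul_assoc, h4]; ring
  · rw [Nat.choose_eq_zero_of_lt (by omega : z < k)]
    simp only [Nat.cast_zero, zero_mul]
    apply Finset.sum_eq_zero
    intro m _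
    by_cases hmk : m < k
    · rw [Nat.choose_eq_zero_of_lt hmk]; simp
    · rw [Nat.choose_eq_zero_of_lt (by omega : z < m)]; simp

lemma abs_det_le_real {ι : Type*} [Fintype ι] [DecidableEq ι] (A : Matrix ι ι ℝ) (b : ι → ℝ)
    (h : ∀ i j, |A i j| ≤ b i) :
    |A.det| ≤ (Fintype.card ι).factorial * ∏ i, b i := by
  rw [← Matrix.det_transpose, Matrix.det_apply']
  refine (Finset.abs_sum_le_sum_abs _ _).trans ?_
  calc ∑ σ : Equiv.Perm ι, |((Equiv.Perm.sign σ : ℤ) : ℝ) * ∏ i, A.transpose (σ i) i|
      ≤ ∑ _σ : Equiv.Perm ι, ∏ i, b i := by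
        apply Finset.sum_le_sum
        intro σ _
        rw [abs_mul, Finset.abs_prod]
        have h1 : |((Equiv.Perm.sign σ : ℤ) : ℝ)| = 1 := by
          rcases Int.units_eq_one_or (Equiv.Perm.sign σ) with h2 | h2 <;> simp [h2]
        rw [h1, one_mul]
        apply Finset.prod_le_prod
        · intro i _; exact abs_nonneg _
        · intro i _; exact h i (σ i)
    _ = (Fintype.card ι).factorial * ∏ i, b i := by
        rw [Finset.sum_const, Finset.card_univ, Fintype.card_perm, nsmul_eq_mul]

/-- the determinant of a product of rectangular matrices -/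
lemma det_sum_le {ι σ : Type*} [Fintype ι] [DecidableEq ι] [Fintype σ] [DecidableEq σ]
    (C : ι → σ → ℝ) (B : σ → ι → ℝ) (b : σ → ℝ) (hC : ∀ i s, 0 ≤ C i s)
    (hB : ∀ s j, |B s j| ≤ b s) (W : (ι → σ) → ℝ) (T : ℝ)
    (hW : ∀ f : ι → σ, Function.Injective f → (∏ i, (C i (f i) * b (f i))) * T ≤ W f)
    (hW0 : ∀ f, 0 ≤ W f) (hT : 0 < T) :
    |(Matrix.of fun i j => ∑ s, C i s * B s j).det| * T ≤ (Fintype.card ι).factorial * ∑ f, W f := by
  classical
  have h1 : (Matrix.of fun i j => ∑ s, C i s * B s j).det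
      = ∑ f : ι → σ, (∏ i, C i (f i)) * (Matrix.of fun i j => B (f i) j).det := by
    have h2 : (Matrix.of fun i j => ∑ s, C i s * B s j) = fun i => ∑ s, C i s • B s := by
      funext i j
      simp [Finset.sum_apply]
    have h3 := MultilinearMap.map_sum (f := (Matrix.detRowAlternating (n := ι) (R := ℝ)).toMultilinearMap)
      (g := fun i s => C i s • B s)
    have h0 : (Matrix.of fun i j => ∑ s, C i s * B s j).det
        = (Matrix.detRowAlternating (n := ι) (R := ℝ)).toMultilinearMap (fun i => ∑ s, C i s • B s) := by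
      rw [← h2]; rfl
    rw [h0, h3]
    apply Finset.sum_congr rfl
    intro f _
    have h4 := MultilinearMap.map_smul_univ
      (Matrix.detRowAlternating (n := ι) (R := ℝ)).toMultilinearMap (fun i => C i (f i)) (fun i => B (f i))
    rw [h4, smul_eq_mul]
    rfl
  rw [h1, Finset.mul_sum]
  refine (mul_le_mul_of_nonneg_right (Finset.abs_sum_le_sum_abs _ _) hT.le).trans ?_
  rw [Finset.sum_mul]
  apply Finset.sum_le_sum
  intro f _
  by_cases hf : Function.Injective f
  · have h5 := abs_det_le_real (Matrix.of fun i j => B (f i) j) (fun i => b (f i))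
      (fun i j => hB (f i) j)
    have h6 : 0 ≤ ∏ i, C i (f i) := Finset.prod_nonneg fun i _ => hC i _
    rw [abs_mul, abs_of_nonneg h6]
    calc (∏ i, C i (f i)) * |(Matrix.of fun i j => B (f i) j).det| * T
        ≤ (∏ i, C i (f i)) * ((Fintype.card ι).factorial * ∏ i, b (f i)) * T := by
          apply mul_le_mul_of_nonneg_right _ hT.le
          exact mul_le_mul_of_nonneg_left h5 h6
      _ = (Fintype.card ι).factorial * ((∏ i, (C i (f i) * b (f i))) * T) := by
          rw [Finset.prod_mul_distrib]; ring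
      _ ≤ (Fintype.card ι).factorial * W f :=
          mul_le_mul_of_nonneg_left (hW f hf) (by positivity)
  · have h5 : (Matrix.of fun i j => B (f i) j).det = 0 := by
      obtain ⟨i, j, hij, hne⟩ := Function.not_injective_iff.mp hf
      apply Matrix.det_zero_of_row_eq hne
      funext l
      simp [hij]
    rw [h5, mul_zero, abs_zero, zero_mul]
    exact mul_nonneg (by positivity) (hW0 f)

/-- upper bound for the main determinant with a perturbation -/
lemma pert_det_le {ι : Type*} [Fintype ι] [DecidableEq ι] (Z G : ℕ) (k : ι → ℕ) (u : ι → ℝ)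
    (z : ι → ℕ) (hz : ∀ j, z j ≤ Z) (hu : ∀ i, 1 ≤ u i)
    (hV : G + ∑ i, k i ≤ Fintype.card ι * (Fintype.card ι - 1) / 2)
    (E : ι → ι → ℝ) (β : ι → ℝ) (hE : ∀ i j, |E i j| ≤ β i) :
    |(Matrix.of fun i j => (Nat.choose (z j) (k i) : ℝ) * u i ^ (z j) + E i j).det| * 2 ^ G
      ≤ (Fintype.card ι).factorial *
        ∏ i, ((Nat.choose Z (k i) : ℝ) * u i ^ k i * (1 + 2 * (u i - 1)) ^ Z +
          2 ^ Fintype.card ι * β i) := by
  classical
  have hβ : ∀ i, 0 ≤ β i := fun i => (abs_nonneg _).trans (hE i i)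
  have hu1 : ∀ i, 0 ≤ u i - 1 := fun i => by linarith [hu i]
  have hu0 : ∀ i, 0 ≤ u i := fun i => by linarith [hu i]
  have h1 : (Matrix.of fun i j => (Nat.choose (z j) (k i) : ℝ) * u i ^ (z j) + E i j)
      = Matrix.of fun i j => ∑ s : Fin (Z + 1) ⊕ ι,
        (Sum.elim (fun m : Fin (Z + 1) =>
          (Nat.choose m (k i) : ℝ) * (u i) ^ (k i) * (u i - 1) ^ ((m : ℕ) - k i))
          (fun i' => if i = i' then (1 : ℝ) else 0) s) *
          (Sum.elim (fun (m : Fin (Z + 1)) (j : ι) => (Nat.choose (z j) m : ℝ)) E s j) := by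
    funext i j
    simp only [Matrix.of_apply, Fintype.sum_sum_type, Sum.elim_inl, Sum.elim_inr]
    have h2 := binom_id (u i - 1) (k i) (z j) Z (hz j)
    rw [add_sub_cancel] at h2
    have h5 : ∑ x, (if i = x then (1 : ℝ) else 0) * E x j = E i j := by
      simp
    rw [h5]
    congr 1
    by_cases hk : k i ≤ z j
    · have h3 : u i ^ (z j) = u i ^ (k i) * u i ^ (z j - k i) := by
        rw [← pow_add]; congr 1; omega
      rw [h3, mul_left_comm, ← h2, Finset.mul_sum]
      apply Finset.sum_congr rfl
      intro m _; ring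
    · rw [Nat.choose_eq_zero_of_lt (by omega : z j < k i)] at h2 ⊢
      simp only [Nat.cast_zero, zero_mul] at h2 ⊢
      have h4 : ∑ m : Fin (Z + 1), ((Nat.choose m (k i) : ℝ) * (u i) ^ (k i) * (u i - 1) ^ ((m : ℕ) - k i)) *
          (Nat.choose (z j) m : ℝ) = (u i) ^ (k i) * ∑ m : Fin (Z + 1), (Nat.choose (z j) m : ℝ) * ((Nat.choose m (k i) : ℝ) * (u i - 1) ^ ((m : ℕ) - k i)) := by
        rw [Finset.mul_sum]
        apply Finset.sum_congr rfl
        intro m _; ring
      rw [h4, h2, mul_zero]
  rw [h1]
  have key := det_sum_le (ι := ι) (σ := Fin (Z + 1) ⊕ ι)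
    (fun i s => Sum.elim (fun m : Fin (Z + 1) =>
          (Nat.choose m (k i) : ℝ) * (u i) ^ (k i) * (u i - 1) ^ ((m : ℕ) - k i))
          (fun i' => if i = i' then (1 : ℝ) else 0) s)
    (fun s j => Sum.elim (fun (m : Fin (Z + 1)) (j : ι) => (Nat.choose (z j) m : ℝ)) E s j)
    (fun s => Sum.elim (fun m : Fin (Z + 1) => (Nat.choose Z m : ℝ)) β s)
    (fun i s => by
      rcases s with m | i'
      · have := hu1 i; have := hu0 i
        simp only [Sum.elim_inl]
        positivity
      · simp only [Sum.elim_inr]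
        split_ifs <;> norm_num)
    (fun s j => by
      rcases s with m | i'
      · simp only [Sum.elim_inl]
        rw [abs_of_nonneg (by positivity)]
        exact_mod_cast Nat.choose_le_choose _ (hz j)
      · simp only [Sum.elim_inr]
        exact hE i' j)
    (fun f => ∏ i, Sum.elim (fun m : Fin (Z + 1) => ((Nat.choose Z m : ℝ) * ((Nat.choose m (k i) : ℝ) *
      (2 * (u i - 1)) ^ ((m : ℕ) - k i)) * u i ^ (k i)))
      (fun i' => if i = i' then 2 ^ Fintype.card ι * β i' else 0) (f i)) (2 ^ G)
    ?_ ?_ (by positivity)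
  · refine key.trans ?_
    apply mul_le_mul_of_nonneg_left _ (by positivity)
    have h2 : ∑ f : ι → Fin (Z + 1) ⊕ ι, ∏ i, Sum.elim (fun m : Fin (Z + 1) => ((Nat.choose Z m : ℝ) * ((Nat.choose m (k i) : ℝ) *
        (2 * (u i - 1)) ^ ((m : ℕ) - k i)) * u i ^ (k i)))
        (fun i' => if i = i' then 2 ^ Fintype.card ι * β i' else 0) (f i)
        = ∏ i, ∑ s : Fin (Z + 1) ⊕ ι, Sum.elim (fun m : Fin (Z + 1) => ((Nat.choose Z m : ℝ) * ((Nat.choose m (k i) : ℝ) *
        (2 * (u i - 1)) ^ ((m : ℕ) - k i)) * u i ^ (k i)))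
        (fun i' => if i = i' then 2 ^ Fintype.card ι * β i' else 0) s := by
      rw [Finset.prod_univ_sum]
      apply Finset.sum_congr _ (fun _ _ => rfl)
      simp
    rw [h2]
    apply Finset.prod_le_prod
    · intro i _
      apply Finset.sum_nonneg
      intro s _
      have := hu1 i; have := hu0 i
      rcases s with m | i'
      · simp only [Sum.elim_inl]
        positivity
      · simp only [Sum.elim_inr]
        have := hβ i'
        split_ifs
        · positivity
        · norm_num
    · intro i _
      rw [Fintype.sum_sum_type]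
      simp only [Sum.elim_inl, Sum.elim_inr]
      have h5 : ∑ x, (if i = x then 2 ^ Fintype.card ι * β x else 0) = 2 ^ Fintype.card ι * β i := by
        simp
      rw [h5]
      apply add_le_add _ le_rfl
      rw [← Finset.sum_mul, binom_id (2 * (u i - 1)) (k i) Z Z le_rfl]
      have h3 : (1 + 2 * (u i - 1)) ^ (Z - k i) ≤ (1 + 2 * (u i - 1)) ^ Z :=
        pow_le_pow_right₀ (by linarith [hu1 i]) (Nat.sub_le _ _)
      have h4 : 0 ≤ (Nat.choose Z (k i) : ℝ) * u i ^ k i := by have := hu0 i; positivity
      calc (Nat.choose Z (k i) : ℝ) * (1 + 2 * (u i - 1)) ^ (Z - k i) * u i ^ k i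
          = ((Nat.choose Z (k i) : ℝ) * u i ^ k i) * (1 + 2 * (u i - 1)) ^ (Z - k i) := by ring
        _ ≤ _ := mul_le_mul_of_nonneg_left h3 h4
  · intro f hf
    obtain ⟨wt, hwt⟩ : ∃ wt : Fin (Z + 1) ⊕ ι → ℕ,
        wt = Sum.elim (fun m : Fin (Z + 1) => (m : ℕ)) (fun _ => Fintype.card ι) := ⟨_, rfl⟩
    have hsum : G ≤ ∑ i, (wt (f i) - k i) := by
      have h5 : Fintype.card ι * (Fintype.card ι - 1) / 2 ≤ ∑ i, wt (f i) := by
        apply sum_weights_ge
        intro t ht
        have h6 : (univ.filter (fun i => wt (f i) ≤ t)).card ≤ (range (t + 1)).card := by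
          apply Finset.card_le_card_of_injOn (fun i => wt (f i))
          · intro i hi
            simp only [coe_filter, mem_univ, true_and, Set.mem_ofPred_eq] at hi
            simp only [coe_range, Set.mem_Iio]
            omega
          · intro i hi j hj hij
            simp only [coe_filter, mem_univ, true_and, Set.mem_ofPred_eq] at hi hj
            simp only at hij
            apply hf
            rw [hwt] at hi hj hij
            rcases hfi : f i with m | j1
            · rcases hfj : f j with m' | j2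
              · rw [hfi, hfj] at hij
                simp only [Sum.elim_inl] at hij
                rw [Fin.ext hij]
              · rw [hfj] at hj
                simp only [Sum.elim_inr] at hj
                omega
            · rw [hfi] at hi
              simp only [Sum.elim_inr] at hi
              omega
        rwa [card_range] at h6
      have h7 : ∑ i, wt (f i) ≤ ∑ i, (wt (f i) - k i) + ∑ i, k i := by
        rw [← Finset.sum_add_distrib]
        apply Finset.sum_le_sum
        intro i _; omega
      omega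
    have h8 : (2 : ℝ) ^ G ≤ ∏ i, (2 : ℝ) ^ (wt (f i) - k i) := by
      rw [Finset.prod_pow_eq_pow_sum]
      exact pow_le_pow_right₀ (by norm_num) hsum
    have h9 : ∀ i (s : Fin (Z + 1) ⊕ ι), 0 ≤ Sum.elim (fun m : Fin (Z + 1) =>
          (Nat.choose m (k i) : ℝ) * (u i) ^ (k i) * (u i - 1) ^ ((m : ℕ) - k i))
          (fun i' => if i = i' then (1 : ℝ) else 0) s *
          Sum.elim (fun m : Fin (Z + 1) => (Nat.choose Z m : ℝ)) β s := by
      intro i s
      have := hu1 i; have := hu0 i
      rcases s with m | i'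
      · simp only [Sum.elim_inl]
        positivity
      · simp only [Sum.elim_inr]
        have := hβ i'
        split_ifs
        · positivity
        · norm_num
    refine (mul_le_mul_of_nonneg_left h8 (Finset.prod_nonneg fun i _ => h9 i (f i))).trans ?_
    rw [← Finset.prod_mul_distrib]
    apply Finset.prod_le_prod
    · intro i _
      exact mul_nonneg (h9 i (f i)) (by positivity)
    · intro i _
      rw [hwt]
      rcases f i with m | i'
      · simp only [Sum.elim_inl]
        rw [mul_pow]
        apply le_of_eq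
        ring
      · simp only [Sum.elim_inr]
        split_ifs with h
        · have h10 : (2 : ℝ) ^ (Fintype.card ι - k i) ≤ 2 ^ Fintype.card ι :=
            pow_le_pow_right₀ (by norm_num) (Nat.sub_le _ _)
          have := mul_le_mul_of_nonneg_left h10 (hβ i')
          linarith
        · simp
  · intro f
    apply Finset.prod_nonneg
    intro i _
    have := hu1 i; have := hu0 i
    rcases f i with m | i'
    · simp only [Sum.elim_inl]
      positivity
    · simp only [Sum.elim_inr]
      have := hβ i'
      split_ifs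
      · positivity
      · norm_num

end Pool.Agent.Work.MP_2738db_nt_U.helper93
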