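import Pool.Agent.Work.MP_2738db_nt_U_helper93.Det

set_option autoImplicit false

/-!
The Archimedean determinant inequality with a linear loss (block ARL of theorem U, helper93).
-/

namespace Pool.Agent.Work.MP_2738db_nt_U.helper93

open Finset BigOperators
open Pool.Agent.Work.MP_2738db_nt_W (zero_est exists_minor sum_weights_ge choose_bound log_le_tenth)

/-- the Archimedean determinant inequality -/
theorem core2 {X Y k₀ ℓ K L R S Z : ℕ}
    (hX0 : 1 ≤ X) (hY0 : 2 ≤ Y) (hcop : Nat.Coprime ℓ k₀) (hℓ : 1 ≤ ℓ)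
    (hR : R ≤ ℓ) (hKL : K * L ≤ R * S) (hK : 1 ≤ K) (hL : 1 ≤ L)
    (hZ : R * k₀ + (S + L) * ℓ ≤ Z) (B : ℝ) (hB : ∀ k < K, ∀ z ≤ Z, (Nat.choose z k : ℝ) ≤ B)
    (lam w W : ℝ) (hw : w = Real.log Y / ℓ) (hlam : Real.log X = k₀ * w + lam)
    (hsm : |lam| * (L * R) * 2 ^ (K * L + 1) ≤ 1) (hwL : L * w ≤ 1) (hW : Z * w ≤ W) :
    2 ^ (K * K * ∑ l ∈ range L, l) ≤ ((K * L).factorial * (2 * B) ^ (K * L)) *
      Real.exp ((K * ∑ l ∈ range L, l : ℕ) * (K * w + 4 * W)) := by
  classical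
  have hXpos : (0 : ℝ) < X := by exact_mod_cast hX0
  have hYpos : (0 : ℝ) < Y := by exact_mod_cast (by omega : 0 < Y)
  have hℓpos : (0 : ℝ) < ℓ := by exact_mod_cast hℓ
  have hw0 : 0 ≤ w := by
    rw [hw]
    apply div_nonneg _ hℓpos.le
    exact Real.log_nonneg (by exact_mod_cast (by omega : 1 ≤ Y))
  have hYw : Real.log Y = ℓ * w := by rw [hw]; field_simp
  have hW0 : 0 ≤ W := le_trans (by positivity) hW
  let zz : Fin R × Fin (S + L) → ℕ := fun t => (t.1 : ℕ) * k₀ + (t.2 : ℕ) * ℓ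
  have hzz : ∀ t, zz t ≤ Z := by
    intro t
    have h1 : (t.1 : ℕ) * k₀ ≤ R * k₀ := Nat.mul_le_mul_right _ t.1.2.le
    have h2 : (t.2 : ℕ) * ℓ ≤ (S + L) * ℓ := Nat.mul_le_mul_right _ t.2.2.le
    simp only [zz]; omega
  let A : Matrix (Fin K × Fin L) (Fin R × Fin (S + L)) ℤ := Matrix.of fun i t =>
    (Nat.choose (zz t) i.1 : ℤ) * ((X : ℤ) ^ (t.1 : ℕ) * (Y : ℤ) ^ (t.2 : ℕ)) ^ (i.2 : ℕ)
  obtain ⟨g, hg⟩ := exists_minor (A.map (Int.castRingHom ℚ)) (by
    intro c hc
    apply zero_est X Y k₀ ℓ hX0 hY0 hcop hR hKL hK hL c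
    intro r hr t ht
    have := hc (⟨r, hr⟩, ⟨t, ht⟩)
    rw [← this]
    apply Finset.sum_congr rfl
    intro i _
    simp [A, zz])
  have hdet : (A.submatrix id g).det ≠ 0 := by
    intro h0
    apply hg
    have h1 : (A.map (Int.castRingHom ℚ)).submatrix id g = (A.submatrix id g).map (Int.castRingHom ℚ) := rfl
    rw [h1, ← RingHom.mapMatrix_apply, ← RingHom.map_det, h0, map_zero]
  -- the real main matrix
  let u : Fin K × Fin L → ℝ := fun i => Real.exp ((i.2 : ℕ) * w)
  have hu1 : ∀ i, 1 ≤ u i := fun i => Real.one_le_exp (by positivity)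
  let Mn : Matrix (Fin K × Fin L) (Fin K × Fin L) ℝ := Matrix.of fun i j =>
    (Nat.choose (zz (g j)) (i.1 : ℕ) : ℝ) * u i ^ (zz (g j))
  let AR : Matrix (Fin K × Fin L) (Fin K × Fin L) ℝ := (A.submatrix id g).map (Int.castRingHom ℝ)
  have hAR : AR.det = ((A.submatrix id g).det : ℝ) := by
    simp only [AR]
    rw [← RingHom.mapMatrix_apply, ← RingHom.map_det]
    rfl
  have hone : 1 ≤ |AR.det| := by
    rw [hAR]
    have h1 : (1 : ℤ) ≤ |(A.submatrix id g).det| := Int.one_le_abs hdet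
    exact_mod_cast h1
  have hentry : ∀ i j, AR i j = Mn i j * Real.exp (lam * ((i.2 : ℕ) * ((g j).1 : ℕ))) := by
    intro i j
    simp only [AR, Mn, A, Matrix.map_apply, Matrix.submatrix_apply, Matrix.of_apply, id_eq, map_mul,
      map_pow, map_natCast, u]
    rw [mul_assoc, ← Real.exp_nat_mul, ← Real.exp_add]
    congr 1
    rw [← Real.exp_log hXpos, ← Real.exp_log hYpos, ← Real.exp_nat_mul, ← Real.exp_nat_mul,
      ← Real.exp_add, ← Real.exp_nat_mul]
    congr 1
    rw [hlam, hYw]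
    simp only [zz]
    push_cast
    ring
  have hcard : Fintype.card (Fin K × Fin L) = K * L := by simp
  have hBnn : 0 ≤ B := le_trans (by positivity) (hB 0 (by omega) 0 (by omega))
  have hsumG : ∑ i : Fin K × Fin L, ((i.2 : ℕ) : ℕ) = K * ∑ l ∈ range L, l := by
    rw [Fintype.sum_prod_type]
    simp only [Finset.sum_const, Finset.card_univ, Fintype.card_fin, smul_eq_mul]
    rw [Fin.sum_univ_eq_sum_range (fun k => k) L]
  have hprodexp : ∀ c : ℝ, ∏ i : Fin K × Fin L, Real.exp ((i.2 : ℕ) * c)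
      = Real.exp ((K * ∑ l ∈ range L, l : ℕ) * c) := by
    intro c
    rw [← Real.exp_sum, ← Finset.sum_mul]
    congr 2
    rw [← hsumG]
    push_cast; rfl
  have hLR0 : (0 : ℝ) ≤ |lam| * (L * R) := by positivity
  have h2pow : (1 : ℝ) ≤ 2 ^ (K * L + 1) := one_le_pow₀ (by norm_num)
  have hsm1 : |lam| * (L * R) ≤ 1 := by
    refine le_trans ?_ hsm
    exact le_mul_of_one_le_right hLR0 h2pow
  -- one row
  have hrow : ∀ i : Fin K × Fin L, (Nat.choose Z (i.1 : ℕ) : ℝ) * u i ^ (i.1 : ℕ) *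
      (1 + 2 * (u i - 1)) ^ Z ≤ B * Real.exp ((i.2 : ℕ) * (K * w + 4 * W)) := by
    intro i
    have hui := hu1 i
    have h3 : u i ^ (i.1 : ℕ) ≤ Real.exp ((i.2 : ℕ) * (K * w)) := by
      simp only [u]
      rw [← Real.exp_nat_mul]
      apply Real.exp_le_exp.mpr
      have h5 : ((i.1 : ℕ) : ℝ) ≤ K := by exact_mod_cast i.1.2.le
      have h6 : 0 ≤ ((i.2 : ℕ) : ℝ) * w := by positivity
      calc ((i.1 : ℕ) : ℝ) * (((i.2 : ℕ) : ℝ) * w) ≤ K * (((i.2 : ℕ) : ℝ) * w) :=
            mul_le_mul_of_nonneg_right h5 h6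
        _ = _ := by ring
    have h4 : (1 + 2 * (u i - 1)) ^ Z ≤ Real.exp ((i.2 : ℕ) * (4 * W)) := by
      have h5 : u i - 1 ≤ 2 * ((i.2 : ℕ) * w) := by
        have h6 : |((i.2 : ℕ) : ℝ) * w| ≤ 1 := by
          rw [abs_of_nonneg (by positivity)]
          have h7 : ((i.2 : ℕ) : ℝ) ≤ L := by exact_mod_cast i.2.2.le
          exact (mul_le_mul_of_nonneg_right h7 hw0).trans hwL
        have h7 := Real.abs_exp_sub_one_le h6
        have h8 := (le_abs_self _).trans h7
        rw [abs_of_nonneg (by positivity)] at h8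
        exact h8
      calc (1 + 2 * (u i - 1)) ^ Z ≤ (Real.exp (2 * (u i - 1))) ^ Z := by
            apply pow_le_pow_left₀ (by linarith)
            rw [add_comm]
            exact Real.add_one_le_exp _
        _ = Real.exp (Z * (2 * (u i - 1))) := by rw [← Real.exp_nat_mul]
        _ ≤ Real.exp ((i.2 : ℕ) * (4 * W)) := by
            apply Real.exp_le_exp.mpr
            have hZ0 : (0 : ℝ) ≤ Z := by positivity
            calc (Z : ℝ) * (2 * (u i - 1)) ≤ Z * (2 * (2 * ((i.2 : ℕ) * w))) := by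
                  apply mul_le_mul_of_nonneg_left _ hZ0
                  linarith
              _ = ((i.2 : ℕ) * 4) * (Z * w) := by ring
              _ ≤ ((i.2 : ℕ) * 4) * W := mul_le_mul_of_nonneg_left hW (by positivity)
              _ = _ := by ring
    have h5 : (Nat.choose Z (i.1 : ℕ) : ℝ) ≤ B := hB _ i.1.2 Z le_rfl
    have h6 : Real.exp ((i.2 : ℕ) * (K * w + 4 * W))
        = Real.exp ((i.2 : ℕ) * (K * w)) * Real.exp ((i.2 : ℕ) * (4 * W)) := by
      rw [← Real.exp_add]; congr 1; ring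
    rw [h6, ← mul_assoc]
    apply mul_le_mul _ h4 (by have : 0 ≤ 1 + 2 * (u i - 1) := by linarith
                              positivity) (by positivity)
    apply mul_le_mul h5 h3 (by have : 0 ≤ u i := by linarith
                               positivity) hBnn
  have hMn : ∀ i j, Mn i j ≤ B * Real.exp ((i.2 : ℕ) * W) := by
    intro i j
    simp only [Mn, Matrix.of_apply]
    apply mul_le_mul (hB _ i.1.2 _ (hzz (g j))) _ (by
      have : 0 ≤ u i := by linarith [hu1 i]
      positivity) hBnn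
    simp only [u]
    rw [← Real.exp_nat_mul]
    apply Real.exp_le_exp.mpr
    have h3 : ((zz (g j) : ℕ) : ℝ) * w ≤ W := by
      refine le_trans ?_ hW
      apply mul_le_mul_of_nonneg_right _ hw0
      exact_mod_cast hzz (g j)
    calc ((zz (g j) : ℕ) : ℝ) * ((i.2 : ℕ) * w) = (i.2 : ℕ) * (((zz (g j) : ℕ) : ℝ) * w) := by ring
      _ ≤ _ := mul_le_mul_of_nonneg_left h3 (by positivity)
  have hMn0 : ∀ i j, 0 ≤ Mn i j := by
    intro i j
    simp only [Mn, Matrix.of_apply]
    have : 0 ≤ u i := by linarith [hu1 i]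
    positivity
  have hE : ∀ i j, |Mn i j * (Real.exp (lam * ((i.2 : ℕ) * ((g j).1 : ℕ))) - 1)| ≤
      (B * Real.exp ((i.2 : ℕ) * W)) * (2 * (|lam| * (L * R))) := by
    intro i j
    have h4 : |lam * (((i.2 : ℕ) : ℝ) * ((g j).1 : ℕ))| ≤ |lam| * (L * R) := by
      rw [abs_mul]
      apply mul_le_mul_of_nonneg_left _ (abs_nonneg _)
      rw [abs_of_nonneg (by positivity)]
      apply mul_le_mul _ _ (by positivity) (by positivity)
      · exact_mod_cast i.2.2.le
      · exact_mod_cast (g j).1.2.le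
    have h5 := Real.abs_exp_sub_one_le (h4.trans hsm1)
    rw [abs_mul, abs_of_nonneg (hMn0 i j)]
    apply mul_le_mul (hMn i j) _ (abs_nonneg _) (mul_nonneg hBnn (Real.exp_pos _).le)
    linarith
  have hARdet : AR.det = (Matrix.of fun i j => (Nat.choose (zz (g j)) (i.1 : ℕ) : ℝ) * u i ^ (zz (g j)) +
      Mn i j * (Real.exp (lam * ((i.2 : ℕ) * ((g j).1 : ℕ))) - 1)).det := by
    congr 1
    funext i j
    rw [hentry i j]
    simp only [Mn, Matrix.of_apply]
    ring
  have hmain := pert_det_le Z (K * K * ∑ l ∈ range L, l) (fun i : Fin K × Fin L => (i.1 : ℕ)) u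
      (fun j => zz (g j)) (fun j => hzz (g j)) hu1 (by
        rw [hcard, Fintype.sum_prod_type]
        simp only [Finset.sum_const, Finset.card_univ, Fintype.card_fin, smul_eq_mul]
        rw [← Finset.mul_sum, Fin.sum_univ_eq_sum_range (fun k => k) K]
        have h1 := Finset.sum_range_id_mul_two L
        have h2 := Finset.sum_range_id_mul_two K
        rw [Nat.le_div_iff_mul_le (by norm_num)]
        obtain ⟨L', rfl⟩ : ∃ L', L = L' + 1 := ⟨L - 1, by omega⟩
        obtain ⟨K', rfl⟩ : ∃ K', K = K' + 1 := ⟨K - 1, by omega⟩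
        simp only [Nat.add_sub_cancel] at h1 h2
        have h3 : (K' + 1) * (L' + 1) - 1 = K' * L' + K' + L' := by
          have : (K' + 1) * (L' + 1) = K' * L' + K' + L' + 1 := by ring
          omega
        rw [h3]
        nlinarith [h1, h2])
      (fun i j => Mn i j * (Real.exp (lam * ((i.2 : ℕ) * ((g j).1 : ℕ))) - 1))
      (fun i => (B * Real.exp ((i.2 : ℕ) * W)) * (2 * (|lam| * (L * R)))) hE
  rw [← hARdet, hcard] at hmain
  have h2pos : (0 : ℝ) < 2 ^ (K * K * ∑ l ∈ range L, l) := by positivity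
  have h3 : (2 : ℝ) ^ (K * K * ∑ l ∈ range L, l) ≤ |AR.det| * 2 ^ (K * K * ∑ l ∈ range L, l) :=
    le_mul_of_one_le_left h2pos.le hone
  refine h3.trans (hmain.trans ?_)
  rw [mul_assoc]
  apply mul_le_mul_of_nonneg_left _ (by positivity)
  have h4 : ∏ i : Fin K × Fin L, ((Nat.choose Z (i.1 : ℕ) : ℝ) * u i ^ (i.1 : ℕ) *
      (1 + 2 * (u i - 1)) ^ Z +
      2 ^ (K * L) * ((B * Real.exp ((i.2 : ℕ) * W)) * (2 * (|lam| * (L * R)))))
      ≤ ∏ i : Fin K × Fin L, ((2 * B) * Real.exp ((i.2 : ℕ) * (K * w + 4 * W))) := by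
    apply Finset.prod_le_prod
    · intro i _
      have := hu1 i
      have h5 : 0 ≤ u i := by linarith
      have h6 : 0 ≤ 1 + 2 * (u i - 1) := by linarith
      positivity
    · intro i _
      have h5 : (2 : ℝ) ^ (K * L) * ((B * Real.exp ((i.2 : ℕ) * W)) * (2 * (|lam| * (L * R)))) =
          (B * Real.exp ((i.2 : ℕ) * W)) * (|lam| * (L * R) * 2 ^ (K * L + 1)) := by
        rw [pow_succ]; ring
      have h6 : (B * Real.exp ((i.2 : ℕ) * W)) * (|lam| * (L * R) * 2 ^ (K * L + 1)) ≤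
          B * Real.exp ((i.2 : ℕ) * W) :=
        mul_le_of_le_one_right (mul_nonneg hBnn (Real.exp_pos _).le) hsm
      have h7 : Real.exp ((i.2 : ℕ) * W) ≤ Real.exp ((i.2 : ℕ) * (K * w + 4 * W)) := by
        apply Real.exp_le_exp.mpr
        apply mul_le_mul_of_nonneg_left _ (by positivity)
        have : 0 ≤ (K : ℝ) * w := by positivity
        linarith
      have h8 : B * Real.exp ((i.2 : ℕ) * W) ≤ B * Real.exp ((i.2 : ℕ) * (K * w + 4 * W)) :=
        mul_le_mul_of_nonneg_left h7 hBnn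
      have h9 := hrow i
      rw [h5]
      linarith
  refine h4.trans (le_of_eq ?_)
  rw [Finset.prod_mul_distrib, hprodexp, Finset.prod_const, Finset.card_univ, hcard]

end Pool.Agent.Work.MP_2738db_nt_U.helper93
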